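import Mathlib

/-!
# Counting for the energy of sets near a quadratic
-/

set_option autoImplicit false

namespace Pool.Agent.Lib_helper67.NQ

open Finset

/-- a set of integers in `[0, L)` all of whose differences are divisible by `m` -/
theorem card_of_dvd (T : Finset ℤ) (m : ℤ) (hm : 1 ≤ m) (L : ℕ)
    (h0 : ∀ t ∈ T, 0 ≤ t ∧ t < (L : ℤ)) (hd : ∀ t ∈ T, ∀ t' ∈ T, m ∣ t - t') :
    (T.card : ℝ) ≤ (L : ℝ) / (m : ℝ) + 1 := by
  classical
  have hmR : (0 : ℝ) < (m : ℝ) := by exact_mod_cast (by omega : 0 < m)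
  have h1 : T.card ≤ (Finset.Icc (0 : ℤ) ((L : ℤ) / m)).card := by
    apply Finset.card_le_card_of_injOn (fun t => t / m)
    · intro t ht
      obtain ⟨a, b⟩ := h0 t (Finset.mem_coe.1 ht)
      rw [Finset.mem_coe, Finset.mem_Icc]
      exact ⟨Int.ediv_nonneg a (by omega), Int.ediv_le_ediv (by omega) b.le⟩
    · intro t ht t' ht' he
      have h2 := hd t (Finset.mem_coe.1 ht) t' (Finset.mem_coe.1 ht')
      have h3 : t % m = t' % m := Int.ModEq.symm ((Int.modEq_iff_dvd).2 h2)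
      have h4 := Int.emod_add_mul_ediv t m
      have h5 := Int.emod_add_mul_ediv t' m
      have he' : t / m = t' / m := he
      rw [← h4, ← h5, h3, he']
  rw [Int.card_Icc] at h1
  have h2 : (0 : ℤ) ≤ (L : ℤ) / m := Int.ediv_nonneg (by positivity) (by omega)
  have h3 : (T.card : ℤ) ≤ (L : ℤ) / m + 1 := by
    have := Int.toNat_of_nonneg (a := (L : ℤ) / m + 1 - 0) (by omega)
    omega
  have h4 : (((L : ℤ) / m : ℤ) : ℝ) ≤ (L : ℝ) / (m : ℝ) := by
    rw [le_div_iff₀ hmR]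
    have h5 : (L : ℤ) / m * m ≤ (L : ℤ) := Int.ediv_mul_le _ (by omega)
    exact_mod_cast h5
  have h5 : (T.card : ℝ) ≤ (((L : ℤ) / m : ℤ) : ℝ) + 1 := by exact_mod_cast h3
  linarith

/-- the number of integers in a closed interval of length `2 ρ` -/
theorem card_int_Icc (c ρ : ℝ) (hρ : 0 ≤ ρ) :
    ((Finset.Icc ⌈-c - ρ⌉ ⌊-c + ρ⌋).card : ℝ) ≤ 2 * ρ + 1 := by
  rw [Int.card_Icc]
  have h1 : (⌈-c - ρ⌉ : ℝ) ≥ -c - ρ := Int.le_ceil _
  have h2 : (⌊-c + ρ⌋ : ℝ) ≤ -c + ρ := Int.floor_le _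
  rcases le_or_gt 0 (⌊-c + ρ⌋ + 1 - ⌈-c - ρ⌉) with h | h
  · have h3 : (((⌊-c + ρ⌋ + 1 - ⌈-c - ρ⌉).toNat : ℤ) : ℝ) =
        ((⌊-c + ρ⌋ + 1 - ⌈-c - ρ⌉ : ℤ) : ℝ) := by
      rw [Int.toNat_of_nonneg h]
    have h4 : ((⌊-c + ρ⌋ + 1 - ⌈-c - ρ⌉).toNat : ℝ) =
        ((⌊-c + ρ⌋ + 1 - ⌈-c - ρ⌉ : ℤ) : ℝ) := by
      rw [← h3]; norm_cast
    rw [h4]
    push_cast
    linarith
  · rw [Int.toNat_eq_zero.2 h.le]
    simp only [Nat.cast_zero]
    linarith

/-- the pairs `(y, v)` in `[0, L)²` with `|p y - q v + c| ≤ ρ` -/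
noncomputable def band (p q : ℤ) (c ρ : ℝ) (L : ℕ) : Finset (ℤ × ℤ) :=
  open scoped Classical in
  (Finset.Ico (0 : ℤ) L ×ˢ Finset.Ico (0 : ℤ) L).filter
    (fun z => |(p : ℝ) * z.1 - (q : ℝ) * z.2 + c| ≤ ρ)

theorem band_card (p q : ℤ) (hp : 1 ≤ p) (hpq : IsCoprime p q) (c ρ : ℝ) (hρ : 0 ≤ ρ) (L : ℕ) :
    ((band p q c ρ L).card : ℝ) ≤ (2 * ρ + 1) * ((L : ℝ) / p + 1) := by
  classical
  set W : Finset ℤ := Finset.Icc ⌈-c - ρ⌉ ⌊-c + ρ⌋ with hW
  have h1 : ∀ z ∈ band p q c ρ L, p * z.1 - q * z.2 ∈ W := by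
    intro z hz
    obtain ⟨_, b⟩ := Finset.mem_filter.1 hz
    rw [hW, Finset.mem_Icc]
    have h2 := abs_le.1 b
    constructor
    · apply Int.ceil_le.2
      push_cast
      linarith [h2.1]
    · apply Int.le_floor.2
      push_cast
      linarith [h2.2]
  have h2 : (band p q c ρ L).card = ∑ w ∈ W,
      ((band p q c ρ L).filter (fun z => p * z.1 - q * z.2 = w)).card :=
    Finset.card_eq_sum_card_fiberwise (fun z hz => Finset.mem_coe.2 (h1 z (Finset.mem_coe.1 hz)))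
  have hcard : ∀ w ∈ W, (((band p q c ρ L).filter (fun z => p * z.1 - q * z.2 = w)).card : ℝ) ≤
      (L : ℝ) / p + 1 := by
    intro w _
    have h3 : ((band p q c ρ L).filter (fun z => p * z.1 - q * z.2 = w)).card =
        (((band p q c ρ L).filter (fun z => p * z.1 - q * z.2 = w)).image (fun z => z.2)).card := by
      rw [Finset.card_image_of_injOn]
      intro z hz z' hz' he
      have a := (Finset.mem_filter.1 (Finset.mem_coe.1 hz)).2
      have b := (Finset.mem_filter.1 (Finset.mem_coe.1 hz')).2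
      have he' : z.2 = z'.2 := he
      have h4 : p * z.1 = p * z'.1 := by
        rw [he'] at a
        linarith
      have h5 : z.1 = z'.1 := mul_left_cancel₀ (by omega) h4
      exact Prod.ext h5 he'
    rw [h3]
    apply card_of_dvd _ p hp L
    · intro t ht
      obtain ⟨z, hz, rfl⟩ := Finset.mem_image.1 ht
      have a := (Finset.mem_filter.1 (Finset.mem_filter.1 hz).1).1
      have b := Finset.mem_Ico.1 (Finset.mem_product.1 a).2
      exact ⟨b.1, b.2⟩
    · intro t ht t' ht'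
      obtain ⟨z, hz, rfl⟩ := Finset.mem_image.1 ht
      obtain ⟨z', hz', rfl⟩ := Finset.mem_image.1 ht'
      have a := (Finset.mem_filter.1 hz).2
      have b := (Finset.mem_filter.1 hz').2
      apply hpq.dvd_of_dvd_mul_left
      refine ⟨z.1 - z'.1, ?_⟩
      linear_combination b - a
  rw [h2]
  push_cast
  calc ∑ w ∈ W, (((band p q c ρ L).filter (fun z => p * z.1 - q * z.2 = w)).card : ℝ)
      ≤ ∑ w ∈ W, ((L : ℝ) / p + 1) := Finset.sum_le_sum hcard
    _ = (W.card : ℝ) * ((L : ℝ) / p + 1) := by rw [Finset.sum_const, nsmul_eq_mul]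
    _ ≤ (2 * ρ + 1) * ((L : ℝ) / p + 1) := by
        apply mul_le_mul_of_nonneg_right (card_int_Icc c ρ hρ)
        have : (0 : ℝ) < p := by exact_mod_cast (by omega : 0 < p)
        positivity

/-- the band for a pair which need not be coprime -/
theorem band_card_gcd (n x : ℕ) (hx : 1 ≤ x) (hxn : x ≤ n) (u : ℤ) (c R : ℝ) (hR : 0 ≤ R) :
    ((band (x : ℤ) u c R (2 * n)).card : ℝ) ≤
      6 * R * n / x + 3 * n * (Int.gcd (x : ℤ) u : ℝ) / x := by
  classical
  set g : ℕ := Int.gcd (x : ℤ) u with hg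
  have hgpos : 0 < g := Int.gcd_pos_of_ne_zero_left _ (by exact_mod_cast (by omega : x ≠ 0))
  have hgR : (0 : ℝ) < g := by exact_mod_cast hgpos
  have hxR : (0 : ℝ) < x := by exact_mod_cast (by omega : 0 < x)
  obtain ⟨p, hp⟩ : (g : ℤ) ∣ (x : ℤ) := Int.gcd_dvd_left _ _
  obtain ⟨q, hq⟩ : (g : ℤ) ∣ u := Int.gcd_dvd_right _ _
  have hp1 : 1 ≤ p := by
    by_contra hcon
    have h1 : p ≤ 0 := by omega
    have h2 : (x : ℤ) ≤ 0 := by
      rw [hp]
      exact mul_nonpos_of_nonneg_of_nonpos (by positivity) h1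
    omega
  have hcop : IsCoprime p q := by
    have h1 : Int.gcd ((x : ℤ) / g) (u / g) = 1 := Int.gcd_div_gcd_div_gcd hgpos
    have h2 : (x : ℤ) / g = p := by
      rw [hp]
      exact Int.mul_ediv_cancel_left _ (by exact_mod_cast hgpos.ne')
    have h3 : u / g = q := by
      rw [hq]
      exact Int.mul_ediv_cancel_left _ (by exact_mod_cast hgpos.ne')
    rw [h2, h3] at h1
    exact Int.isCoprime_iff_gcd_eq_one.2 h1
  have hpR : (x : ℝ) = g * p := by exact_mod_cast hp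
  have hqR : (u : ℝ) = g * q := by exact_mod_cast hq
  have hsub : band (x : ℤ) u c R (2 * n) ⊆ band p q (c / g) (R / g) (2 * n) := by
    intro z hz
    obtain ⟨a, b⟩ := Finset.mem_filter.1 hz
    refine Finset.mem_filter.2 ⟨a, ?_⟩
    have h1 : (p : ℝ) * z.1 - (q : ℝ) * z.2 + c / g =
        (((x : ℤ) : ℝ) * z.1 - (u : ℝ) * z.2 + c) / g := by
      rw [hqR, Int.cast_natCast, hpR]
      field_simp
    rw [h1, abs_div, abs_of_pos hgR]
    exact div_le_div_of_nonneg_right b hgR.le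
  have h1 : ((band (x : ℤ) u c R (2 * n)).card : ℝ) ≤
      ((band p q (c / g) (R / g) (2 * n)).card : ℝ) := by
    exact_mod_cast Finset.card_le_card hsub
  have h2 := band_card p q hp1 hcop (c / g) (R / g) (by positivity) (2 * n)
  have hpos : (0 : ℝ) < p := by exact_mod_cast (by omega : 0 < p)
  have hnR : (x : ℝ) ≤ n := by exact_mod_cast hxn
  have h3 : ((2 * n : ℕ) : ℝ) / p + 1 ≤ 3 * n / p := by
    have h4 : (1 : ℝ) ≤ n / p := by
      rw [le_div_iff₀ hpos, one_mul]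
      have h5 : (p : ℝ) ≤ x := by
        rw [hpR]
        have h6 : (1 : ℝ) ≤ g := by exact_mod_cast hgpos
        nlinarith
      linarith
    have h5 : ((2 * n : ℕ) : ℝ) / p = 2 * (n / p) := by push_cast; ring
    have h6 : 3 * (n : ℝ) / p = 3 * (n / p) := by ring
    rw [h5, h6]
    linarith
  calc ((band (x : ℤ) u c R (2 * n)).card : ℝ)
      ≤ (2 * (R / g) + 1) * (((2 * n : ℕ) : ℝ) / p + 1) := h1.trans h2
    _ ≤ (2 * (R / g) + 1) * (3 * n / p) := mul_le_mul_of_nonneg_left h3 (by positivity)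
    _ = 6 * R * n / x + 3 * n * (g : ℝ) / x := by
        rw [hpR]
        field_simp
        ring

theorem sum_gcd_le (x : ℕ) (hx : 1 ≤ x) :
    (∑ u ∈ Finset.Icc (-(x : ℤ)) x, (Int.gcd (x : ℤ) u : ℝ)) ≤
      4 * x * (x.divisors.card : ℝ) := by
  classical
  have h1 : ∀ u ∈ Finset.Icc (-(x : ℤ)) x, (Int.gcd (x : ℤ) u : ℝ) ≤
      ∑ g ∈ x.divisors, if (g : ℤ) ∣ u then (g : ℝ) else 0 := by
    intro u _
    have hmem : Int.gcd (x : ℤ) u ∈ x.divisors := by
      rw [Nat.mem_divisors]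
      refine ⟨?_, by omega⟩
      have := Int.gcd_dvd_left (x : ℤ) u
      exact_mod_cast this
    have h2 := Finset.single_le_sum (f := fun g : ℕ => if (g : ℤ) ∣ u then (g : ℝ) else 0)
      (fun g _ => by
        change (0 : ℝ) ≤ if (g : ℤ) ∣ u then (g : ℝ) else 0
        split_ifs <;> positivity) hmem
    rw [if_pos (Int.gcd_dvd_right _ _)] at h2
    exact h2
  refine (Finset.sum_le_sum h1).trans ?_
  rw [Finset.sum_comm]
  have h2 : ∀ g ∈ x.divisors, (∑ u ∈ Finset.Icc (-(x : ℤ)) x, if (g : ℤ) ∣ u then (g : ℝ) else 0) ≤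
      4 * x := by
    intro g hg
    have hgx := Nat.divisor_le hg
    have hg1 : 1 ≤ g := Nat.pos_of_mem_divisors hg
    have hgR : (0 : ℝ) < g := by exact_mod_cast hg1
    rw [← Finset.sum_filter, Finset.sum_const, nsmul_eq_mul]
    have h3 : (((Finset.Icc (-(x : ℤ)) x).filter (fun u => (g : ℤ) ∣ u)).card : ℝ) ≤
        ((2 * x + 1 : ℕ) : ℝ) / ((g : ℤ) : ℝ) + 1 := by
      have h4 : ((Finset.Icc (-(x : ℤ)) x).filter (fun u => (g : ℤ) ∣ u)).card =
          (((Finset.Icc (-(x : ℤ)) x).filter (fun u => (g : ℤ) ∣ u)).image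
            (fun u : ℤ => u + (x : ℤ))).card := by
        rw [Finset.card_image_of_injective _ (add_left_injective _)]
      rw [h4]
      apply card_of_dvd _ (g : ℤ) (by omega) (2 * x + 1)
      · intro t ht
        obtain ⟨u, hu, rfl⟩ := Finset.mem_image.1 ht
        have := Finset.mem_Icc.1 (Finset.mem_filter.1 hu).1
        push_cast
        constructor <;> linarith [this.1, this.2]
      · intro t ht t' ht'
        obtain ⟨u, hu, rfl⟩ := Finset.mem_image.1 ht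
        obtain ⟨u', hu', rfl⟩ := Finset.mem_image.1 ht'
        have a := (Finset.mem_filter.1 hu).2
        have b := (Finset.mem_filter.1 hu').2
        have : u + (x : ℤ) - (u' + (x : ℤ)) = u - u' := by ring
        rw [this]
        exact dvd_sub a b
    have h5 : (g : ℝ) ≤ x := by exact_mod_cast hgx
    have h6 : (1 : ℝ) ≤ x := by exact_mod_cast hx
    calc (((Finset.Icc (-(x : ℤ)) x).filter (fun u => (g : ℤ) ∣ u)).card : ℝ) * g
        ≤ (((2 * x + 1 : ℕ) : ℝ) / ((g : ℤ) : ℝ) + 1) * g :=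
          mul_le_mul_of_nonneg_right h3 hgR.le
      _ = 2 * x + 1 + g := by
          push_cast
          field_simp
      _ ≤ 4 * x := by linarith
  calc ∑ g ∈ x.divisors, (∑ u ∈ Finset.Icc (-(x : ℤ)) x, if (g : ℤ) ∣ u then (g : ℝ) else 0)
      ≤ ∑ g ∈ x.divisors, (4 * (x : ℝ)) := Finset.sum_le_sum h2
    _ = 4 * x * (x.divisors.card : ℝ) := by
        rw [Finset.sum_const, nsmul_eq_mul]
        ring

theorem sum_divisors_card_le (n : ℕ) :
    (∑ x ∈ Finset.Icc 1 n, (x.divisors.card : ℝ)) ≤ n * (1 + Real.log n) := by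
  classical
  have h1 : ∀ x ∈ Finset.Icc 1 n, (x.divisors.card : ℝ) =
      ∑ g ∈ Finset.Icc 1 n, if g ∣ x then (1 : ℝ) else 0 := by
    intro x hx
    have hx' := Finset.mem_Icc.1 hx
    rw [← Finset.sum_filter, Finset.sum_const, nsmul_eq_mul, mul_one]
    congr 2
    ext g
    rw [Nat.mem_divisors, Finset.mem_filter, Finset.mem_Icc]
    constructor
    · rintro ⟨a, b⟩
      exact ⟨⟨Nat.pos_of_dvd_of_pos a (by omega), (Nat.le_of_dvd (by omega) a).trans hx'.2⟩, a⟩
    · rintro ⟨_, a⟩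
      exact ⟨a, by omega⟩
  rw [Finset.sum_congr rfl h1, Finset.sum_comm]
  have h2 : ∀ g ∈ Finset.Icc 1 n, (∑ x ∈ Finset.Icc 1 n, if g ∣ x then (1 : ℝ) else 0) ≤
      (n : ℝ) * (g : ℝ)⁻¹ := by
    intro g hg
    rw [← Finset.sum_filter, Finset.sum_const, nsmul_eq_mul, mul_one]
    have h3 : ((Finset.Icc 1 n).filter (fun x => g ∣ x)).card = n / g := by
      have := Nat.Ioc_filter_dvd_card_eq_div n g
      rw [← this]
      congr 1
    rw [h3, ← div_eq_mul_inv]
    exact Nat.cast_div_le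
  refine (Finset.sum_le_sum h2).trans ?_
  rw [← Finset.mul_sum]
  apply mul_le_mul_of_nonneg_left _ (by positivity)
  have h3 := harmonic_le_one_add_log n
  have h4 : ((harmonic n : ℚ) : ℝ) = ∑ g ∈ Finset.Icc 1 n, (g : ℝ)⁻¹ := by
    rw [harmonic_eq_sum_Icc]
    push_cast
    rfl
  rw [← h4]
  exact h3

end Pool.Agent.Lib_helper67.NQ
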