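import Pool.Agent.Lib_helper67.NQ.Main
import Pool.Agent.Lib_helper96.CvxPoly.Poly

/-!
# The additive energy of sets near few quadratics
-/

set_option autoImplicit false

namespace Pool.Agent.Lib_helper67.NQ

open Finset
open scoped Combinatorics.Additive Pointwise
open Pool.Agent.Lib_helper96.CvxPoly

/-- Minkowski's inequality for finite sums -/
theorem sum_sq_le_sq_sum_sqrt {ι κ : Type} (P : Finset ι) (S : Finset κ) (f : ι → κ → ℝ) :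
    ∑ s ∈ S, (∑ p ∈ P, f p s) ^ 2 ≤ (∑ p ∈ P, Real.sqrt (∑ s ∈ S, f p s ^ 2)) ^ 2 := by
  have h1 : ∑ s ∈ S, (∑ p ∈ P, f p s) ^ 2 =
      ∑ p ∈ P, ∑ r ∈ P, ∑ s ∈ S, f p s * f r s := by
    have h2 : ∀ s ∈ S, (∑ p ∈ P, f p s) ^ 2 = ∑ p ∈ P, ∑ r ∈ P, f p s * f r s := by
      intro s _
      rw [sq, Finset.sum_mul_sum]
    rw [Finset.sum_congr rfl h2, Finset.sum_comm]
    apply Finset.sum_congr rfl
    intro p _
    rw [Finset.sum_comm]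
  rw [h1, sq, Finset.sum_mul_sum]
  apply Finset.sum_le_sum
  intro p _
  apply Finset.sum_le_sum
  intro r _
  exact Real.sum_mul_le_sqrt_mul_sqrt _ _ _

/-- the energy of a union: `E(∪ B_j)^(1/4) ≤ ∑ E(B_j)^(1/4)` -/
theorem energy_cover_sharp {ι : Type} [Fintype ι] (A : Finset ℝ) (B : ι → Finset ℝ)
    (hA : ∀ a ∈ A, ∃ j, a ∈ B j) :
    (E[A, A] : ℝ) ≤ (∑ j, Real.sqrt (Real.sqrt (E[B j, B j]))) ^ 4 := by
  classical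
  have hU : A ⊆ Finset.univ.biUnion B := by
    intro a ha
    obtain ⟨j, hj⟩ := hA a ha
    exact Finset.mem_biUnion.2 ⟨j, Finset.mem_univ _, hj⟩
  set U := Finset.univ.biUnion B with hUdef
  have hBU : ∀ j, B j ⊆ U := fun j => Finset.subset_biUnion_of_mem B (Finset.mem_univ j)
  have h0 : E[A, A] ≤ E[U, U] := Finset.addEnergy_mono hU hU
  have h1 := Finset.addEnergy_eq_sum_sq' U U
  have h2 : ∀ s : ℝ, #{xy ∈ U ×ˢ U | xy.1 + xy.2 = s} ≤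
      ∑ p : ι × ι, #{xy ∈ B p.1 ×ˢ B p.2 | xy.1 + xy.2 = s} := by
    intro s
    refine le_trans (Finset.card_le_card ?_) Finset.card_biUnion_le
    intro q hq
    obtain ⟨a, b⟩ := Finset.mem_filter.1 hq
    obtain ⟨a1, a2⟩ := Finset.mem_product.1 a
    obtain ⟨j, _, hj⟩ := Finset.mem_biUnion.1 a1
    obtain ⟨k, _, hk⟩ := Finset.mem_biUnion.1 a2
    exact Finset.mem_biUnion.2 ⟨(j, k), Finset.mem_univ _,
      Finset.mem_filter.2 ⟨Finset.mem_product.2 ⟨hj, hk⟩, b⟩⟩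
  have h3 : (E[U, U] : ℝ) ≤ ∑ s ∈ U + U,
      (∑ p : ι × ι, (#{xy ∈ B p.1 ×ˢ B p.2 | xy.1 + xy.2 = s} : ℝ)) ^ 2 := by
    rw [h1]
    push_cast
    apply Finset.sum_le_sum
    intro s _
    have h4 : (#{xy ∈ U ×ˢ U | xy.1 + xy.2 = s} : ℝ) ≤
      ∑ p : ι × ι, (#{xy ∈ B p.1 ×ˢ B p.2 | xy.1 + xy.2 = s} : ℝ) := by exact_mod_cast h2 s
    exact pow_le_pow_left₀ (by positivity) h4 2
  have h5 : ∀ p : ι × ι, ∑ s ∈ U + U, (#{xy ∈ B p.1 ×ˢ B p.2 | xy.1 + xy.2 = s} : ℝ) ^ 2 ≤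
      (E[B p.1, B p.2] : ℝ) := by
    intro p
    rw [Finset.addEnergy_eq_sum_sq']
    push_cast
    rw [← Finset.sum_subset (Finset.add_subset_add (hBU p.1) (hBU p.2))]
    intro s _ hs
    have h6 : ({xy ∈ B p.1 ×ˢ B p.2 | xy.1 + xy.2 = s} : Finset (ℝ × ℝ)) = ∅ := by
      rw [Finset.filter_eq_empty_iff]
      intro q hq he
      obtain ⟨a1, a2⟩ := Finset.mem_product.1 hq
      exact hs (he ▸ Finset.add_mem_add a1 a2)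
    rw [h6]
    simp
  have h6 : (∑ p : ι × ι, Real.sqrt (∑ s ∈ U + U,
      (#{xy ∈ B p.1 ×ˢ B p.2 | xy.1 + xy.2 = s} : ℝ) ^ 2)) ≤
      (∑ j, Real.sqrt (Real.sqrt (E[B j, B j]))) ^ 2 := by
    rw [sq, Finset.sum_mul_sum, ← Finset.univ_product_univ, Finset.sum_product]
    apply Finset.sum_le_sum
    intro j _
    apply Finset.sum_le_sum
    intro k _
    rw [← Real.sqrt_mul (Real.sqrt_nonneg _)]
    exact Real.sqrt_le_sqrt ((h5 (j, k)).trans (energy_le_sqrt _ _))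
  calc (E[A, A] : ℝ) ≤ E[U, U] := by exact_mod_cast h0
    _ ≤ ∑ s ∈ U + U,
      (∑ p : ι × ι, (#{xy ∈ B p.1 ×ˢ B p.2 | xy.1 + xy.2 = s} : ℝ)) ^ 2 := h3
    _ ≤ (∑ p : ι × ι, Real.sqrt (∑ s ∈ U + U,
        (#{xy ∈ B p.1 ×ˢ B p.2 | xy.1 + xy.2 = s} : ℝ) ^ 2)) ^ 2 :=
        sum_sq_le_sq_sum_sqrt _ _ _
    _ ≤ ((∑ j, Real.sqrt (Real.sqrt (E[B j, B j]))) ^ 2) ^ 2 :=
        pow_le_pow_left₀ (Finset.sum_nonneg fun p _ => Real.sqrt_nonneg _) h6 2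
    _ = (∑ j, Real.sqrt (Real.sqrt (E[B j, B j]))) ^ 4 := by ring

/-- the quadruples of a sequence near a quadratic with a small alternating sum -/
theorem near_quad (n : ℕ) (α β γ D : ℝ) (hα : α ≠ 0) (hD : 0 ≤ D) (a : ℕ → ℝ)
    (ha : ∀ i < n, |a i - (α * (i : ℝ) ^ 2 + β * i + γ)| ≤ D * |α|)
    (Q : Finset ((ℕ × ℕ) × (ℕ × ℕ)))
    (hQ : ∀ q ∈ Q, ((q.1.1 < n ∧ q.1.2 < n) ∧ (q.2.1 < n ∧ q.2.2 < n)) ∧
      |a q.1.1 + a q.1.2 - a q.2.1 - a q.2.2| ≤ D * |α|) :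
    (Q.card : ℝ) ≤ 360 * n ^ 2 * (1 + Real.log n + D) := by
  classical
  have hαp : 0 < |α| := abs_pos.2 hα
  have hsub : Q ⊆ quadB n (β / α) (5 * D) := by
    intro q hq
    obtain ⟨⟨⟨a1, a2⟩, a3, a4⟩, a5⟩ := hQ q hq
    refine mem_quadB.2 ⟨⟨⟨a1, a2⟩, a3, a4⟩, ?_⟩
    have b1 := abs_le.1 (ha _ a1)
    have b2 := abs_le.1 (ha _ a2)
    have b3 := abs_le.1 (ha _ a3)
    have b4 := abs_le.1 (ha _ a4)
    have b5 := abs_le.1 a5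
    have h1 : α * (((q.1.1 : ℝ) ^ 2 + (q.1.2 : ℝ) ^ 2 - (q.2.1 : ℝ) ^ 2 - (q.2.2 : ℝ) ^ 2) +
      β / α * ((q.1.1 : ℝ) + q.1.2 - q.2.1 - q.2.2)) =
      α * ((q.1.1 : ℝ) ^ 2 + (q.1.2 : ℝ) ^ 2 - (q.2.1 : ℝ) ^ 2 - (q.2.2 : ℝ) ^ 2) +
      β * ((q.1.1 : ℝ) + q.1.2 - q.2.1 - q.2.2) := by
      field_simp
    have h2 : |α * (((q.1.1 : ℝ) ^ 2 + (q.1.2 : ℝ) ^ 2 - (q.2.1 : ℝ) ^ 2 - (q.2.2 : ℝ) ^ 2) +
      β / α * ((q.1.1 : ℝ) + q.1.2 - q.2.1 - q.2.2))| ≤ 5 * D * |α| := by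
      rw [h1, abs_le]
      constructor <;> linarith [b1.1, b1.2, b2.1, b2.2, b3.1, b3.2, b4.1, b4.2, b5.1, b5.2]
    rw [abs_mul, mul_comm] at h2
    exact le_of_mul_le_mul_right h2 hαp
  have h1 : (Q.card : ℝ) ≤ ((quadB n (β / α) (5 * D)).card : ℝ) := by
    exact_mod_cast Finset.card_le_card hsub
  have h2 := card_quadB_le n (β / α) (5 * D) (by positivity)
  have h3 : 0 ≤ Real.log n := Real.log_natCast_nonneg n
  have h4 : (0 : ℝ) ≤ (n : ℝ) ^ 2 := by positivity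
  have h5 : 0 ≤ (n : ℝ) ^ 2 * Real.log n := mul_nonneg h4 h3
  nlinarith [h1, h2, h4, h5]

end Pool.Agent.Lib_helper67.NQ
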