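import Pool.Agent.Lib_helper67.NQ.Count

/-!
# Quadruples on which a sequence near a quadratic has a small alternating sum
-/

set_option autoImplicit false

namespace Pool.Agent.Lib_helper67.NQ

open Finset

/-- quadruples `((i, j), (k, l))` below `n` with
`|i² + j² - k² - l² + b (i + j - k - l)| ≤ R` -/
noncomputable def quadB (n : ℕ) (b R : ℝ) : Finset ((ℕ × ℕ) × (ℕ × ℕ)) :=
  open scoped Classical in
  ((range n ×ˢ range n) ×ˢ (range n ×ˢ range n)).filter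
    (fun q => |((q.1.1 : ℝ) ^ 2 + (q.1.2 : ℝ) ^ 2 - (q.2.1 : ℝ) ^ 2 - (q.2.2 : ℝ) ^ 2) +
      b * ((q.1.1 : ℝ) + q.1.2 - q.2.1 - q.2.2)| ≤ R)

theorem mem_quadB {n : ℕ} {b R : ℝ} {q : (ℕ × ℕ) × (ℕ × ℕ)} :
    q ∈ quadB n b R ↔ ((q.1.1 < n ∧ q.1.2 < n) ∧ (q.2.1 < n ∧ q.2.2 < n)) ∧
      |((q.1.1 : ℝ) ^ 2 + (q.1.2 : ℝ) ^ 2 - (q.2.1 : ℝ) ^ 2 - (q.2.2 : ℝ) ^ 2) +
      b * ((q.1.1 : ℝ) + q.1.2 - q.2.1 - q.2.2)| ≤ R := by
  unfold quadB
  simp only [Finset.mem_filter, Finset.mem_product, Finset.mem_range]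

/-- the quadruples with `k < i` and `|l - j| ≤ i - k` -/
noncomputable def quadT (n : ℕ) (b R : ℝ) : Finset ((ℕ × ℕ) × (ℕ × ℕ)) :=
  open scoped Classical in
  (quadB n b R).filter
    (fun q => q.2.1 < q.1.1 ∧ |(q.2.2 : ℤ) - q.1.2| ≤ (q.1.1 : ℤ) - q.2.1)

theorem mem_quadT {n : ℕ} {b R : ℝ} {q : (ℕ × ℕ) × (ℕ × ℕ)} :
    q ∈ quadT n b R ↔ q ∈ quadB n b R ∧ q.2.1 < q.1.1 ∧
      |(q.2.2 : ℤ) - q.1.2| ≤ (q.1.1 : ℤ) - q.2.1 := by
  unfold quadT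
  simp only [Finset.mem_filter]

theorem card_quadT_le (n : ℕ) (b R : ℝ) (hR : 0 ≤ R) :
    ((quadT n b R).card : ℝ) ≤ 18 * R * n ^ 2 + 12 * n ^ 2 * (1 + Real.log n) := by
  classical
  set Sg : Finset (Σ _ : ℕ, ℤ) :=
    (Finset.Icc 1 n).sigma (fun x : ℕ => Finset.Icc (-(x : ℤ)) x) with hSg
  set f : (ℕ × ℕ) × (ℕ × ℕ) → (Σ _ : ℕ, ℤ) :=
    fun q => ⟨q.1.1 - q.2.1, (q.2.2 : ℤ) - q.1.2⟩ with hf
  have hmaps : ∀ q ∈ quadT n b R, f q ∈ Sg := by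
    intro q hq
    obtain ⟨hB, h1, h2⟩ := mem_quadT.1 hq
    obtain ⟨⟨⟨a1, a2⟩, a3, a4⟩, _⟩ := mem_quadB.1 hB
    rw [hSg, Finset.mem_sigma]
    have h3 := abs_le.1 h2
    refine ⟨Finset.mem_Icc.2 ⟨?_, ?_⟩, Finset.mem_Icc.2 ⟨?_, ?_⟩⟩
    · change 1 ≤ q.1.1 - q.2.1
      omega
    · change q.1.1 - q.2.1 ≤ n
      omega
    · change -((q.1.1 - q.2.1 : ℕ) : ℤ) ≤ (q.2.2 : ℤ) - q.1.2
      omega
    · change (q.2.2 : ℤ) - q.1.2 ≤ ((q.1.1 - q.2.1 : ℕ) : ℤ)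
      omega
  have hfib : ∀ s ∈ Sg, (((quadT n b R).filter (fun q => f q = s)).card : ℝ) ≤
      6 * R * n / s.1 + 3 * n * (Int.gcd (s.1 : ℤ) s.2 : ℝ) / s.1 := by
    intro s hs
    obtain ⟨x, u⟩ := s
    obtain ⟨hx, hu⟩ := Finset.mem_sigma.1 hs
    have hx' := Finset.mem_Icc.1 hx
    change 1 ≤ x ∧ x ≤ n at hx'
    have h1 := band_card_gcd n x hx'.1 hx'.2 u (b * ((x : ℝ) - u)) R hR
    refine le_trans (Nat.cast_le.2 ?_) h1
    apply Finset.card_le_card_of_injOn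
      (fun q => ((q.1.1 : ℤ) + q.2.1, (q.2.2 : ℤ) + q.1.2))
    · intro q hq
      obtain ⟨hq1, hq2⟩ := Finset.mem_filter.1 (Finset.mem_coe.1 hq)
      obtain ⟨hB, h2, h3⟩ := mem_quadT.1 hq1
      obtain ⟨⟨⟨a1, a2⟩, a3, a4⟩, a5⟩ := mem_quadB.1 hB
      rw [hf] at hq2
      have e1 : q.1.1 - q.2.1 = x := congrArg Sigma.fst hq2
      have e2 : (q.2.2 : ℤ) - q.1.2 = u := by
        have := (Sigma.mk.inj_iff.1 hq2).2
        exact eq_of_heq this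
      have e3 : (q.1.1 : ℝ) = x + q.2.1 := by
        have : q.1.1 = x + q.2.1 := by omega
        exact_mod_cast this
      have e4 : (q.2.2 : ℝ) = u + q.1.2 := by
        have : (q.2.2 : ℤ) = u + q.1.2 := by omega
        exact_mod_cast this
      rw [Finset.mem_coe]
      unfold band
      refine Finset.mem_filter.2 ⟨Finset.mem_product.2 ⟨Finset.mem_Ico.2 ?_,
        Finset.mem_Ico.2 ?_⟩, ?_⟩
      · change 0 ≤ (q.1.1 : ℤ) + q.2.1 ∧ (q.1.1 : ℤ) + q.2.1 < ((2 * n : ℕ) : ℤ)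
        omega
      · change 0 ≤ (q.2.2 : ℤ) + q.1.2 ∧ (q.2.2 : ℤ) + q.1.2 < ((2 * n : ℕ) : ℤ)
        omega
      · have e5 : (((x : ℤ) : ℤ) : ℝ) * (((q.1.1 : ℤ) + q.2.1 : ℤ) : ℝ) -
            (u : ℝ) * (((q.2.2 : ℤ) + q.1.2 : ℤ) : ℝ) + b * ((x : ℝ) - u) =
            ((q.1.1 : ℝ) ^ 2 + (q.1.2 : ℝ) ^ 2 - (q.2.1 : ℝ) ^ 2 - (q.2.2 : ℝ) ^ 2) +
      b * ((q.1.1 : ℝ) + q.1.2 - q.2.1 - q.2.2) := by
          push_cast
          rw [e3, e4]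
          ring
        change |(((x : ℤ) : ℤ) : ℝ) * (((q.1.1 : ℤ) + q.2.1 : ℤ) : ℝ) -
            (u : ℝ) * (((q.2.2 : ℤ) + q.1.2 : ℤ) : ℝ) + b * ((x : ℝ) - u)| ≤ R
        rw [e5]
        exact a5
    · intro q hq q' hq' he
      obtain ⟨_, hq2⟩ := Finset.mem_filter.1 (Finset.mem_coe.1 hq)
      obtain ⟨_, hq2'⟩ := Finset.mem_filter.1 (Finset.mem_coe.1 hq')
      obtain ⟨hB, h2, h3⟩ := mem_quadT.1 (Finset.mem_filter.1 (Finset.mem_coe.1 hq)).1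
      obtain ⟨hB', h2', h3'⟩ := mem_quadT.1 (Finset.mem_filter.1 (Finset.mem_coe.1 hq')).1
      rw [hf] at hq2 hq2'
      have e1 : q.1.1 - q.2.1 = x := congrArg Sigma.fst hq2
      have e1' : q'.1.1 - q'.2.1 = x := congrArg Sigma.fst hq2'
      have e2 : (q.2.2 : ℤ) - q.1.2 = u := eq_of_heq (Sigma.mk.inj_iff.1 hq2).2
      have e2' : (q'.2.2 : ℤ) - q'.1.2 = u := eq_of_heq (Sigma.mk.inj_iff.1 hq2').2
      simp only [Prod.mk.injEq] at he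
      obtain ⟨e3, e4⟩ := he
      have g1 : q.1.1 = q'.1.1 := by omega
      have g2 : q.2.1 = q'.2.1 := by omega
      have g3 : q.1.2 = q'.1.2 := by omega
      have g4 : q.2.2 = q'.2.2 := by omega
      exact Prod.ext (Prod.ext g1 g3) (Prod.ext g2 g4)
  have h1 : ((quadT n b R).card : ℝ) = ∑ s ∈ Sg,
      (((quadT n b R).filter (fun q => f q = s)).card : ℝ) := by
    have := Finset.card_eq_sum_card_fiberwise (s := quadT n b R) (t := Sg) (f := f)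
      (fun q hq => Finset.mem_coe.2 (hmaps q (Finset.mem_coe.1 hq)))
    rw [this]
    push_cast
    rfl
  rw [h1]
  refine (Finset.sum_le_sum hfib).trans ?_
  rw [hSg, Finset.sum_sigma]
  have h2 : ∀ x ∈ Finset.Icc 1 n, (∑ u ∈ Finset.Icc (-(x : ℤ)) x,
      (6 * R * n / (x : ℝ) + 3 * n * (Int.gcd (x : ℤ) u : ℝ) / (x : ℝ))) ≤
      18 * R * n + 12 * n * (x.divisors.card : ℝ) := by
    intro x hx
    have hx' := Finset.mem_Icc.1 hx
    have hxR : (1 : ℝ) ≤ x := by exact_mod_cast hx'.1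
    have hx0 : (0 : ℝ) < x := by linarith
    rw [Finset.sum_add_distrib, Finset.sum_const, nsmul_eq_mul, ← Finset.sum_div,
      ← Finset.mul_sum, Int.card_Icc]
    have h3 : (((x : ℤ) + 1 - -(x : ℤ)).toNat : ℝ) = 2 * x + 1 := by
      have : ((x : ℤ) + 1 - -(x : ℤ)).toNat = 2 * x + 1 := by omega
      rw [this]
      push_cast
      ring
    rw [h3]
    have h4 := sum_gcd_le x hx'.1
    have h5 : (2 * (x : ℝ) + 1) * (6 * R * n / x) ≤ 18 * R * n := by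
      rw [mul_div_assoc', div_le_iff₀ hx0]
      have h6 : 0 ≤ R * n := by positivity
      nlinarith
    have h7 : 3 * n * (∑ u ∈ Finset.Icc (-(x : ℤ)) x, (Int.gcd (x : ℤ) u : ℝ)) / (x : ℝ) ≤
        12 * n * (x.divisors.card : ℝ) := by
      rw [div_le_iff₀ hx0]
      have h8 := mul_le_mul_of_nonneg_left h4 (by positivity : (0 : ℝ) ≤ 3 * n)
      calc 3 * n * (∑ u ∈ Finset.Icc (-(x : ℤ)) x, (Int.gcd (x : ℤ) u : ℝ))
          ≤ 3 * n * (4 * x * (x.divisors.card : ℝ)) := h8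
        _ = 12 * n * (x.divisors.card : ℝ) * x := by ring
    exact add_le_add h5 h7
  refine (Finset.sum_le_sum h2).trans ?_
  rw [Finset.sum_add_distrib, Finset.sum_const, nsmul_eq_mul, ← Finset.mul_sum, Nat.card_Icc]
  have h3 := mul_le_mul_of_nonneg_left (sum_divisors_card_le n) (by positivity : (0 : ℝ) ≤ 12 * n)
  have h4 : ((n + 1 - 1 : ℕ) : ℝ) = n := by simp
  rw [h4]
  calc (n : ℝ) * (18 * R * n) + 12 * n * ∑ x ∈ Finset.Icc 1 n, (x.divisors.card : ℝ)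
      ≤ (n : ℝ) * (18 * R * n) + 12 * n * (n * (1 + Real.log n)) := by linarith
    _ = 18 * R * n ^ 2 + 12 * n ^ 2 * (1 + Real.log n) := by ring

/-- the quadruples in the symmetric position -/
theorem quadB_subset (n : ℕ) (b R : ℝ) :
    quadB n b R ⊆ ((range n ×ˢ range n).image (fun p => (p, p))) ∪ (quadT n b R ∪
      ((quadT n b R).image (fun q => (q.2, q.1)) ∪
      ((quadT n b R).image (fun q => ((q.1.2, q.1.1), (q.2.2, q.2.1))) ∪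
      (quadT n b R).image (fun q => ((q.2.2, q.2.1), (q.1.2, q.1.1)))))) := by
  classical
  intro q hq
  obtain ⟨⟨⟨a1, a2⟩, a3, a4⟩, a5⟩ := mem_quadB.1 hq
  simp only [Finset.mem_union]
  by_cases h0 : q.1.1 = q.2.1 ∧ q.1.2 = q.2.2
  · left
    refine Finset.mem_image.2 ⟨q.1, Finset.mem_product.2 ⟨Finset.mem_range.2 a1,
      Finset.mem_range.2 a2⟩, ?_⟩
    exact Prod.ext rfl (Prod.ext h0.1 h0.2)
  right
  by_cases h1 : q.2.1 < q.1.1 ∧ |(q.2.2 : ℤ) - q.1.2| ≤ (q.1.1 : ℤ) - q.2.1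
  · left
    exact mem_quadT.2 ⟨hq, h1⟩
  right
  by_cases h2 : q.1.1 < q.2.1 ∧ |(q.1.2 : ℤ) - q.2.2| ≤ (q.2.1 : ℤ) - q.1.1
  · left
    refine Finset.mem_image.2 ⟨(q.2, q.1), mem_quadT.2 ⟨mem_quadB.2 ⟨⟨⟨a3, a4⟩, a1, a2⟩, ?_⟩, h2⟩,
      rfl⟩
    rw [← abs_neg] at a5
    convert a5 using 2
    ring
  right
  by_cases h3 : q.2.2 < q.1.2 ∧ |(q.2.1 : ℤ) - q.1.1| ≤ (q.1.2 : ℤ) - q.2.2
  · left
    refine Finset.mem_image.2 ⟨((q.1.2, q.1.1), (q.2.2, q.2.1)),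
      mem_quadT.2 ⟨mem_quadB.2 ⟨⟨⟨a2, a1⟩, a4, a3⟩, ?_⟩, h3⟩, rfl⟩
    convert a5 using 2
    ring
  right
  have h4 : q.1.2 < q.2.2 ∧ |(q.1.1 : ℤ) - q.2.1| ≤ (q.2.2 : ℤ) - q.1.2 := by
    rw [abs_le] at h1 h2 h3 ⊢
    omega
  refine Finset.mem_image.2 ⟨((q.2.2, q.2.1), (q.1.2, q.1.1)),
    mem_quadT.2 ⟨mem_quadB.2 ⟨⟨⟨a4, a3⟩, a2, a1⟩, ?_⟩, h4⟩, rfl⟩
  rw [← abs_neg] at a5
  convert a5 using 2
  ring

theorem card_quadB_le (n : ℕ) (b R : ℝ) (hR : 0 ≤ R) :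
    ((quadB n b R).card : ℝ) ≤ 72 * n ^ 2 * (1 + Real.log n + R) := by
  classical
  have h1 := Finset.card_le_card (quadB_subset n b R)
  have h2 : (quadB n b R).card ≤ n ^ 2 + 4 * (quadT n b R).card := by
    refine h1.trans ?_
    refine (Finset.card_union_le _ _).trans ?_
    have e1 : ((range n ×ˢ range n).image (fun p => (p, p))).card ≤ n ^ 2 := by
      refine Finset.card_image_le.trans ?_
      rw [Finset.card_product, Finset.card_range, sq]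
    have e2 := Finset.card_union_le (quadT n b R)
      ((quadT n b R).image (fun q => (q.2, q.1)) ∪
      ((quadT n b R).image (fun q => ((q.1.2, q.1.1), (q.2.2, q.2.1))) ∪
      (quadT n b R).image (fun q => ((q.2.2, q.2.1), (q.1.2, q.1.1)))))
    have e3 := Finset.card_union_le ((quadT n b R).image (fun q => (q.2, q.1)))
      ((quadT n b R).image (fun q => ((q.1.2, q.1.1), (q.2.2, q.2.1))) ∪
      (quadT n b R).image (fun q => ((q.2.2, q.2.1), (q.1.2, q.1.1))))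
    have e4 := Finset.card_union_le
      ((quadT n b R).image (fun q => ((q.1.2, q.1.1), (q.2.2, q.2.1))))
      ((quadT n b R).image (fun q => ((q.2.2, q.2.1), (q.1.2, q.1.1))))
    have f1 : ((quadT n b R).image (fun q => (q.2, q.1))).card ≤ (quadT n b R).card :=
      Finset.card_image_le
    have f2 : ((quadT n b R).image (fun q => ((q.1.2, q.1.1), (q.2.2, q.2.1)))).card ≤
      (quadT n b R).card := Finset.card_image_le
    have f3 : ((quadT n b R).image (fun q => ((q.2.2, q.2.1), (q.1.2, q.1.1)))).card ≤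
      (quadT n b R).card := Finset.card_image_le
    omega
  have h3 : ((quadB n b R).card : ℝ) ≤ (n : ℝ) ^ 2 + 4 * ((quadT n b R).card : ℝ) := by
    exact_mod_cast h2
  have h4 := card_quadT_le n b R hR
  have h5 : 0 ≤ Real.log n := Real.log_natCast_nonneg n
  have h6 : (0 : ℝ) ≤ (n : ℝ) ^ 2 := by positivity
  have h7 : 0 ≤ (n : ℝ) ^ 2 * Real.log n := mul_nonneg h6 h5
  nlinarith [h3, h4, h6, h7]

end Pool.Agent.Lib_helper67.NQ
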